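import Mathlib
import Pool.Agent.Lib.MP_52a0c0_ag.Ring
import Pool.Agent.Lib.MP_52a0c0_ag.Lyu

/-! # Nonzero differing equal and mixed characteristic Lyubeznik numbers -/

noncomputable section

namespace Pool.Agent.Results.MP_52a0c0_ag.TwoVersusOne

open Pool.Agent.Lib.MP_52a0c0_ag IsLocalRing MvPowerSeries

/-- The power series ring over the field with two elements. -/
abbrev S1 : Type := MvPowerSeries (Fin 8) (ZMod 2)

/-- The power series ring over the 2-adic integers. -/
abbrev S2 : Type := MvPowerSeries (Fin 8) ℤ_[2]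

theorem ker1 : ∀ a : ZMod 2, RingHom.id (ZMod 2) a = 0 → ∃ b, a = 2 * b := by
  intro a ha
  exact ⟨0, by rw [mul_zero]; exact ha⟩

theorem surj1 : Function.Surjective (RingHom.id (ZMod 2)) := fun a => ⟨a, rfl⟩

theorem surj2 : Function.Surjective (PadicInt.toZMod (p := 2)) := ZMod.ringHom_surjective _

theorem two_ne : (2 : ℤ_[2]) ≠ 0 := two_ne_zero

theorem max1 : maximalIdeal S1 = Ideal.span (insert 2 (Set.range (X : Fin 8 → S1))) :=
  max_eq_span _ surj1 ker1

theorem max2 : maximalIdeal S2 = Ideal.span (insert 2 (Set.range (X : Fin 8 → S2))) :=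
  max_eq_span _ surj2 fun _ h => two_dvd_of h

theorem two_zero : (2 : S1) = 0 := by
  have : (2 : S1) = C 2 := (map_ofNat C 2).symm
  rw [this, show (2 : ZMod 2) = 0 from rfl, map_zero]

theorem max1' : maximalIdeal S1 = Ideal.span (Set.range (X : Fin 8 → S1)) := by
  rw [max1, two_zero]
  exact Submodule.span_insert_zero

theorem reg1 : IsRegularLocalRing S1 ∧ ringKrullDim S1 = 8 := by
  have h1 : ringKrullDim S1 = (0 + 8 : ℕ) := dim_mv (ZMod 2) 0 (by simp) 8
  have h2 : ringKrullDim S1 = 8 := by rw [h1]; rfl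
  refine ⟨IsRegularLocalRing.of_spanFinrank_maximalIdeal_le S1 ?_, h2⟩
  rw [h2, max1']
  have h3 := Submodule.spanFinrank_span_le_ncard_of_finite (R := S1)
    (Set.finite_range (X : Fin 8 → S1))
  have h4 : (Set.range (X : Fin 8 → S1)).ncard ≤ 8 := by
    have h5 := Set.ncard_image_le (Set.finite_univ) (f := (X : Fin 8 → S1))
    rw [Set.image_univ, Set.ncard_univ, Nat.card_fin] at h5
    exact h5
  exact_mod_cast h3.trans h4

theorem reg2 : IsRegularLocalRing S2 ∧ ringKrullDim S2 = 9 := by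
  have h0 : ringKrullDim ℤ_[2] = (1 : ℕ) := by
    have := IsPrincipalIdealRing.ringKrullDim_eq_one ℤ_[2]
      (IsDiscreteValuationRing.not_isField ℤ_[2])
    exact_mod_cast this
  have h1 : ringKrullDim S2 = (1 + 8 : ℕ) := dim_mv ℤ_[2] 1 h0 8
  have h2 : ringKrullDim S2 = 9 := by rw [h1]; rfl
  refine ⟨IsRegularLocalRing.of_spanFinrank_maximalIdeal_le S2 ?_, h2⟩
  rw [h2, max2]
  have h3 := Submodule.spanFinrank_span_le_ncard_of_finite (R := S2)
    ((Set.finite_range (X : Fin 8 → S2)).insert 2)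
  have h4 : (insert 2 (Set.range (X : Fin 8 → S2))).ncard ≤ 9 := by
    have h5 := Set.ncard_image_le (Set.finite_univ) (f := (X : Fin 8 → S2))
    rw [Set.image_univ, Set.ncard_univ, Nat.card_fin] at h5
    exact (Set.ncard_insert_le _ _).trans (by omega)
  exact_mod_cast h3.trans h4

/-- The ideal. -/
abbrev I1 : Ideal S1 := Ideal.span (Set.range (gens (ZMod 2) Ngen))

theorem I1_le : I1 ≤ maximalIdeal S1 := by
  rw [max1', Ideal.span_le]
  rintro _ ⟨i, rfl⟩
  have h : ∀ i, 0 < (Ngen i).card := by decide +kernel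
  obtain ⟨v, hv⟩ := Finset.card_pos.mp (h i)
  exact Ideal.mem_of_dvd _ (Finset.dvd_prod_of_mem _ hv) (Ideal.subset_span ⟨v, rfl⟩)

theorem I1_ne : I1 ≠ ⊤ := fun h => by
  have := I1_le
  rw [h, top_le_iff] at this
  exact (maximalIdeal.isMaximal S1).ne_top this

/-- The local ring. -/
abbrev R1 : Type := S1 ⧸ I1

instance : Nontrivial R1 := Ideal.Quotient.nontrivial_iff.mpr I1_ne

instance : IsLocalRing R1 := IsLocalRing.of_surjective' (Ideal.Quotient.mk I1)
  Ideal.Quotient.mk_surjective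

theorem charR1 : CharP R1 2 := by
  have h : ((2 : ℕ) : R1) = 0 := by
    have h1 : ((2 : ℕ) : R1) = Ideal.Quotient.mk I1 2 := by
      rw [map_ofNat]
      rfl
    rw [h1, two_zero, map_zero]
  exact CharTwo.of_one_ne_zero_of_two_eq_zero one_ne_zero h

theorem completeR1 : IsAdicComplete (maximalIdeal R1) R1 := by
  have h : IsAdicComplete (maximalIdeal S1) S1 := by
    rw [max1']
    infer_instance
  exact complete_quotient I1

theorem two_notMem : ((2 : ℕ) : S2) ∉ maximalIdeal S2 ^ 2 := by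
  intro h
  have h1 : (constantCoeff (σ := Fin 8) (R := ℤ_[2])) ((2 : ℕ) : S2) ∈
      (maximalIdeal S2 ^ 2).map (constantCoeff (σ := Fin 8) (R := ℤ_[2])) :=
    Ideal.mem_map_of_mem _ h
  have h2 : (maximalIdeal S2).map (constantCoeff (σ := Fin 8) (R := ℤ_[2])) ≤
      Ideal.span {2} := by
    rw [max2, Ideal.map_span, Ideal.span_le]
    rintro _ ⟨_, (rfl | ⟨v, rfl⟩), rfl⟩
    · rw [map_ofNat]
      exact Ideal.subset_span rfl
    · rw [constantCoeff_X]
      exact zero_mem _
  rw [Ideal.map_pow, map_natCast] at h1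
  have h3 := Ideal.pow_right_mono h2 2 h1
  rw [Ideal.span_singleton_pow, Ideal.mem_span_singleton] at h3
  obtain ⟨c, hc⟩ := h3
  have h4 : (2 : ℤ_[2]) * 1 = 2 * (2 * c) := by
    rw [mul_one]
    calc (2 : ℤ_[2]) = ((2 : ℕ) : ℤ_[2]) := by norm_num
      _ = 2 ^ 2 * c := hc
      _ = 2 * (2 * c) := by ring
  have h5 := mul_left_cancel₀ two_ne h4
  have h6 := congrArg (PadicInt.toZMod (p := 2)) h5
  rw [map_one, map_mul, map_ofNat] at h6
  have h7 : ∀ t : ZMod 2, (1 : ZMod 2) ≠ 2 * t := by decide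
  exact h7 _ h6

/-- Reduction modulo two. -/
def red : S2 →+* S1 := MvPowerSeries.map (PadicInt.toZMod (p := 2))

theorem red_surj : Function.Surjective red := by
  intro p
  choose g hg using surj2
  refine ⟨fun n => g (coeff n p), ?_⟩
  ext n
  exact hg _

theorem red_ker : RingHom.ker red = Ideal.span {2} := by
  ext p
  rw [RingHom.mem_ker, Ideal.mem_span_singleton]
  constructor
  · intro h
    have h1 : ∀ n, ∃ b, coeff n p = 2 * b := by
      intro n
      apply two_dvd_of
      have h2 := congrArg (coeff n) h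
      rw [map_zero] at h2
      exact h2
    choose b hb using h1
    refine ⟨b, ?_⟩
    have h2 : (2 : S2) = C 2 := (map_ofNat C 2).symm
    rw [h2]
    ext n
    rw [coeff_C_mul, hb]
    rfl
  · rintro ⟨q, rfl⟩
    rw [map_mul, map_ofNat, two_zero, zero_mul]

theorem red_gens (i : Fin 20) : red (gens ℤ_[2] Ngen i) = gens (ZMod 2) Ngen i := by
  unfold gens red
  rw [map_prod]
  exact Finset.prod_congr rfl fun v _ => map_X _ v

theorem range_gens2 : Set.range (gens2 ℤ_[2] Ngen) = insert 2 (Set.range (gens ℤ_[2] Ngen)) := by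
  unfold gens2
  rw [Fin.range_cons]

/-- The surjection. -/
def π2 : S2 →+* R1 := (Ideal.Quotient.mk I1).comp red

theorem π2_surj : Function.Surjective π2 := Ideal.Quotient.mk_surjective.comp red_surj

theorem π2_ker : RingHom.ker π2 = Ideal.span (Set.range (gens2 ℤ_[2] Ngen)) := by
  have h1 : I1 = (Ideal.span (Set.range (gens ℤ_[2] Ngen))).map red := by
    have h0 : red ∘ gens ℤ_[2] Ngen = gens (ZMod 2) Ngen := funext red_gens
    rw [Ideal.map_span, ← Set.range_comp, h0]
  have h2 : RingHom.ker π2 = I1.comap red := by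
    ext p
    rw [RingHom.mem_ker, Ideal.mem_comap]
    exact Ideal.Quotient.eq_zero_iff_mem
  rw [h2, h1, Ideal.comap_map_of_surjective red red_surj]
  have h3 : Ideal.comap red ⊥ = Ideal.span {2} := red_ker
  rw [h3, range_gens2, Ideal.span_insert, sup_comm]

theorem gens_ne (A : Type) [CommRing A] [IsDomain A] (i : Fin 20) : gens A Ngen i ≠ 0 := by
  unfold gens
  refine Finset.prod_ne_zero_iff.mpr fun v _ h => ?_
  have h1 := congrArg (coeff (Finsupp.single v 1)) h
  rw [coeff_index_single_self_X, map_zero] at h1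
  exact one_ne_zero h1

theorem gens2_ne (i : Fin 21) : gens2 ℤ_[2] Ngen i ≠ 0 := by
  refine Fin.cases ?_ (fun j => gens_ne ℤ_[2] j) i
  change (2 : S2) ≠ 0
  intro h
  have h2 := congrArg (constantCoeff (σ := Fin 8) (R := ℤ_[2])) h
  rw [map_ofNat, map_zero] at h2
  exact two_ne h2

theorem card1 : Nat.card (SC (X : Fin 8 → S1) (gens (ZMod 2) Ngen) 6 ⧸
    (BC (gens (ZMod 2) Ngen) 6).addSubgroupOf
      (SC (X : Fin 8 → S1) (gens (ZMod 2) Ngen) 6)) = 2 ^ 2 := by
  obtain ⟨e⟩ := equal_equiv Ngen 5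
  rw [← Nat.card_congr e.toEquiv, card_SF _ fun b => ⟨1, by rw [pow_one]; exact char_two_smul b⟩,
    card_equal]

theorem card2 : Nat.card (SC (X : Fin 8 → S2) (gens2 ℤ_[2] Ngen) 7 ⧸
    (BC (gens2 ℤ_[2] Ngen) 7).addSubgroupOf
      (SC (X : Fin 8 → S2) (gens2 ℤ_[2] Ngen) 7)) = 2 ^ 1 := by
  obtain ⟨e⟩ := mixed_equiv two_ne ℚ_[2] Ngen 5
  rw [← Nat.card_congr e.toEquiv, card_SF _ PQ_tor, card_mixed]

theorem ext1 : extDim (gens (ZMod 2) Ngen) 0 6 = 2 :=
  extDim_zero _ 6 2 (finite_tors _ _ _ max1 2 card1)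
    (socleDim_eq _ _ _ max1 (card_res _ surj1) 2 card1)

theorem ext2 : extDim (gens2 ℤ_[2] Ngen) 0 7 = 1 := by
  exact_mod_cast extDim_zero _ 7 1 (finite_tors _ _ _ max2 1 card2)
    (socleDim_eq _ _ _ max2 (card_res _ surj2) 1 card2)

/-- There is a complete Noetherian local ring `R` of characteristic two with
`λ_{0,2}(R) = 2` and with mixed characteristic Lyubeznik number of indices `0`, `2` equal
to `1`. -/
theorem result : ∃ (R : Type) (_ : CommRing R) (_ : IsLocalRing R),
    IsNoetherianRing R ∧ IsAdicComplete (maximalIdeal R) R ∧ CharP R 2 ∧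
      EqualLyu R 0 2 2 ∧ MixedLyu 2 R 0 2 1 := by
  refine ⟨R1, inferInstance, inferInstance, inferInstance, completeR1, charR1, ?_, ?_⟩
  · refine ⟨S1, inferInstance, inferInstance, inferInstance, 6, 20, gens (ZMod 2) Ngen,
      ⟨(C (σ := Fin 8) (R := ZMod 2)).range, ?_⟩,
      ⟨reg1.1, by rw [reg1.2]; rfl, gens_ne _, Ideal.Quotient.mk I1, Ideal.Quotient.mk_surjective,
        Ideal.mk_ker⟩, ext1⟩
    have hi : Function.Injective (C (σ := Fin 8) (R := ZMod 2)).rangeRestrict := by
      intro a b h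
      have h1 : C (σ := Fin 8) a = C b := congrArg Subtype.val h
      have h2 := congrArg (constantCoeff (σ := Fin 8) (R := ZMod 2)) h1
      rwa [constantCoeff_C, constantCoeff_C] at h2
    exact MulEquiv.isField (Field.toIsField (ZMod 2))
      (RingEquiv.ofBijective _ ⟨hi, RingHom.rangeRestrict_surjective _⟩).symm.toMulEquiv
  · refine ⟨S2, inferInstance, inferInstance, inferInstance, 7, 21, gens2 ℤ_[2] Ngen,
      ⟨?_, ?_, two_notMem⟩, ⟨reg2.1, by rw [reg2.2]; rfl, gens2_ne, π2, π2_surj, π2_ker⟩, ext2⟩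
    · refine ⟨fun a b h => ?_⟩
      have h1 := congrArg (constantCoeff (σ := Fin 8) (R := ℤ_[2])) h
      rw [map_natCast, map_natCast] at h1
      exact Nat.cast_injective h1
    · rw [max2]
      exact Ideal.subset_span (Set.mem_insert_iff.mpr (Or.inl (by norm_num)))

end Pool.Agent.Results.MP_52a0c0_ag.TwoVersusOne
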